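import Mathlib

/-!
# An infinite-dimensional Noetherian Lie algebra approximable by nilpotent Lie algebras

Let `k` be a field of characteristic zero and let `L` be the Lie algebra with basis
`e 1, e 2, e 3, …` and `[e i, e j] = (j - i) e (i + j)`, here realised as `k[X]` with the bracket
`[F, G] = X ^ 2 (F G' - F' G)` and `e (n + 1) = X ^ n`. Then `L` is infinite-dimensional, every
ascending chain of subalgebras of `L` is eventually constant, and `L` is residually nilpotent.

The degrees `deg F + 1` of the nonzero elements of a subalgebra form a set of positive integers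
which contains with two distinct elements also their sum; ascending chains of such sets are
eventually constant, and a subalgebra of a subalgebra `S` with the same set of degrees is `S`.
-/

set_option autoImplicit false

namespace Pool.Agent.Results.MP_d0ec72_al.NoetherianExample

open Polynomial

universe u

/-! ### sets of positive integers closed under sums of distinct elements -/

/-- `D` contains with two distinct elements also their sum -/
def Closed (D : Set ℕ) : Prop := ∀ i ∈ D, ∀ j ∈ D, i ≠ j → i + j ∈ D

theorem exists_finite (D : Set ℕ) (hD : Closed D) (hpos : ∀ i ∈ D, 0 < i) :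
    ∃ E : Set ℕ, E.Finite ∧ E ⊆ D ∧ ∀ D' : Set ℕ, Closed D' → E ⊆ D' → D ⊆ D' := by
  rcases D.eq_empty_or_nonempty with h0 | ⟨a, ha⟩
  · subst h0
    exact ⟨∅, Set.finite_empty, subset_rfl, fun _ _ h => h⟩
  have ha0 := hpos a ha
  have hadd : ∀ i ∈ D, a < i → ∀ m : ℕ, i + m * a ∈ D := by
    intro i hi hai m
    induction m with
    | zero => simpa using hi
    | succ m ih =>
      have := hD (i + m * a) ih a ha (by
        have : 0 ≤ m * a := Nat.zero_le _
        omega)
      rw [show i + (m + 1) * a = i + m * a + a by ring]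
      exact this
  refine ⟨{i | i ∈ D ∧ i ≤ 2 * a} ∪ {i | i ∈ D ∧ 2 * a < i ∧ i - a ∉ D}, ?_, ?_, ?_⟩
  · apply Set.Finite.union
    · exact (Set.finite_Iic (2 * a)).subset fun i hi => hi.2
    · apply Set.Finite.of_finite_image (f := fun i => i % a)
      · apply (Set.finite_Iio a).subset
        rintro _ ⟨i, -, rfl⟩
        exact Nat.mod_lt _ ha0
      · have key : ∀ i j : ℕ, (i ∈ D ∧ 2 * a < i ∧ i - a ∉ D) → (j ∈ D ∧ 2 * a < j ∧ j - a ∉ D) →
            i % a = j % a → ¬ i < j := by
          rintro i j ⟨hi, hi2, -⟩ ⟨hj, hj2, hj3⟩ hij hlt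
          apply hj3
          have hd : a ∣ j - i := (Nat.modEq_iff_dvd' hlt.le).1 hij
          obtain ⟨m, hm⟩ := hd
          rcases m with _ | m
          · omega
          · have := hadd i hi (by omega) m
            have e : j - a = i + m * a := by
              have : j = i + (m + 1) * a := by
                have : j - i = (m + 1) * a := by rw [hm]; ring
                omega
              rw [this, show i + (m + 1) * a = i + m * a + a by ring, Nat.add_sub_cancel]
            rw [e]
            exact this
        intro i hi j hj hij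
        rcases lt_trichotomy i j with h | h | h
        · exact absurd h (key i j hi hj hij)
        · exact h
        · exact absurd h (key j i hj hi hij.symm)
  · rintro i (hi | hi)
    · exact hi.1
    · exact hi.1
  · intro D' hD' hE i
    induction i using Nat.strong_induction_on with
    | _ i ih =>
      intro hi
      by_cases h1 : i ≤ 2 * a
      · exact hE (Or.inl ⟨hi, h1⟩)
      · by_cases h2 : i - a ∈ D
        · have h3 := ih (i - a) (by omega) h2
          have ha' : a ∈ D' := hE (Or.inl ⟨ha, by omega⟩)
          have := hD' (i - a) h3 a ha' (by omega)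
          rwa [Nat.sub_add_cancel (by omega)] at this
        · exact hE (Or.inr ⟨hi, by omega, h2⟩)

/-! ### the Lie algebra -/

/-- The underlying vector space `k[X]`. -/
def W (k : Type u) [Field k] : Type u := k[X]

variable {k : Type u} [Field k]

noncomputable instance : AddCommGroup (W k) := inferInstanceAs (AddCommGroup k[X])

noncomputable instance : Module k (W k) := inferInstanceAs (Module k k[X])

/-- an element as a polynomial -/
noncomputable def toPoly : W k ≃ₗ[k] k[X] := LinearEquiv.refl k k[X]

/-- The bracket `[F, G] = X ^ 2 (F G' - F' G)`. -/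
noncomputable instance : Bracket (W k) (W k) :=
  ⟨fun F G => toPoly.symm (X ^ 2 * (toPoly F * derivative (toPoly G) -
    derivative (toPoly F) * toPoly G))⟩

theorem toPoly_lie (F G : W k) : toPoly ⁅F, G⁆ =
    X ^ 2 * (toPoly F * derivative (toPoly G) - derivative (toPoly F) * toPoly G) := rfl

noncomputable instance : LieRing (W k) where
  add_lie F G H := by
    apply toPoly.injective
    simp only [map_add, toPoly_lie]
    ring
  lie_add F G H := by
    apply toPoly.injective
    simp only [map_add, toPoly_lie]
    ring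
  lie_self F := by
    apply toPoly.injective
    simp only [toPoly_lie, map_zero]
    ring
  leibniz_lie F G H := by
    apply toPoly.injective
    simp only [map_add, toPoly_lie, derivative_mul, derivative_sub, derivative_X_pow]
    simp only [Nat.cast_ofNat, C_ofNat]
    ring

noncomputable instance : LieAlgebra k (W k) where
  lie_smul c F G := by
    apply toPoly.injective
    simp only [map_smul, toPoly_lie, mul_smul_comm, ← smul_sub]

theorem infinite_dim : ¬ FiniteDimensional k (W k) := by
  intro h
  have : Module.Finite k k[X] := h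
  exact Polynomial.not_finite this

theorem coeff_X_mul_derivative (p : k[X]) (n : ℕ) :
    (X * derivative p).coeff n = n * p.coeff n := by
  rcases n with _ | n
  · simp
  · rw [coeff_X_mul, coeff_derivative]
    push_cast
    ring

theorem natDegree_X_mul_derivative (p : k[X]) : (X * derivative p).natDegree ≤ p.natDegree := by
  rw [natDegree_le_iff_coeff_eq_zero]
  intro n hn
  rw [coeff_X_mul_derivative, coeff_eq_zero_of_natDegree_lt hn, mul_zero]

theorem natDegree_lie [CharZero k] {F G : W k} (hF : toPoly F ≠ 0) (hG : toPoly G ≠ 0)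
    (h : (toPoly F).natDegree ≠ (toPoly G).natDegree) :
    toPoly ⁅F, G⁆ ≠ 0 ∧
      (toPoly ⁅F, G⁆).natDegree = (toPoly F).natDegree + (toPoly G).natDegree + 1 := by
  obtain ⟨f, hf⟩ : ∃ f, f = toPoly F := ⟨_, rfl⟩
  obtain ⟨g, hg⟩ : ∃ g, g = toPoly G := ⟨_, rfl⟩
  rw [toPoly_lie, ← hf, ← hg]
  rw [← hf] at hF h
  rw [← hg] at hG h
  obtain ⟨Q, hQ⟩ : ∃ Q, Q = f * (X * derivative g) - (X * derivative f) * g := ⟨_, rfl⟩
  have e : X ^ 2 * (f * derivative g - derivative f * g) = X * Q := by
    rw [hQ]
    ring
  have hdeg : Q.natDegree ≤ f.natDegree + g.natDegree := by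
    rw [hQ]
    refine (natDegree_sub_le _ _).trans (max_le ?_ ?_)
    · exact natDegree_mul_le.trans (Nat.add_le_add_left (natDegree_X_mul_derivative g) _)
    · exact natDegree_mul_le.trans (Nat.add_le_add_right (natDegree_X_mul_derivative f) _)
  have hc : Q.coeff (f.natDegree + g.natDegree) =
      ((g.natDegree : k) - f.natDegree) * (f.leadingCoeff * g.leadingCoeff) := by
    rw [hQ, coeff_sub, coeff_mul_add_eq_of_natDegree_le le_rfl (natDegree_X_mul_derivative g),
      coeff_mul_add_eq_of_natDegree_le (natDegree_X_mul_derivative f) le_rfl, coeff_X_mul_derivative,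
      coeff_X_mul_derivative, leadingCoeff, leadingCoeff]
    ring
  have hne : Q.coeff (f.natDegree + g.natDegree) ≠ 0 := by
    rw [hc]
    refine mul_ne_zero ?_ (mul_ne_zero (leadingCoeff_ne_zero.2 hF) (leadingCoeff_ne_zero.2 hG))
    rw [sub_ne_zero]
    exact_mod_cast h.symm
  have hQ0 : Q ≠ 0 := by
    rintro rfl
    exact hne (coeff_zero _)
  have hQd : Q.natDegree = f.natDegree + g.natDegree :=
    le_antisymm hdeg (le_natDegree_of_ne_zero hne)
  rw [e]
  refine ⟨mul_ne_zero X_ne_zero hQ0, ?_⟩
  rw [natDegree_X_mul hQ0, hQd]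

/-- the degrees of the nonzero elements of a subalgebra, increased by one -/
def degs (S : LieSubalgebra k (W k)) : Set ℕ :=
  {i | ∃ F ∈ S, toPoly F ≠ 0 ∧ (toPoly F).natDegree + 1 = i}

theorem degs_mono {S S' : LieSubalgebra k (W k)} (h : S ≤ S') : degs S ⊆ degs S' := by
  rintro i ⟨F, hF, h1, h2⟩
  exact ⟨F, h hF, h1, h2⟩

theorem degs_pos {S : LieSubalgebra k (W k)} : ∀ i ∈ degs S, 0 < i := by
  rintro i ⟨F, hF, h1, h2⟩
  omega

theorem degs_closed [CharZero k] (S : LieSubalgebra k (W k)) : Closed (degs S) := by
  rintro i ⟨F, hF, h1, h2⟩ j ⟨G, hG, h3, h4⟩ hij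
  have := natDegree_lie h1 h3 (by omega)
  refine ⟨⁅F, G⁆, S.lie_mem hF hG, this.1, ?_⟩
  rw [this.2]
  omega

theorem le_of_degs {S S' : LieSubalgebra k (W k)} (h : S ≤ S') (hd : degs S' ⊆ degs S) :
    S' ≤ S := by
  have key : ∀ n : ℕ, ∀ F ∈ S', (toPoly F).natDegree < n → F ∈ S := by
    intro n
    induction n with
    | zero => intro F _ h; omega
    | succ n ih =>
      intro F hF hn
      by_cases h0 : toPoly F = 0
      · have : F = 0 := toPoly.injective (by rw [h0, map_zero])
        rw [this]
        exact S.zero_mem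
      obtain ⟨G, hG, hG0, hGd⟩ := hd ⟨F, hF, h0, rfl⟩
      have hGd' : (toPoly G).natDegree = (toPoly F).natDegree := by omega
      set c : k := (toPoly F).leadingCoeff / (toPoly G).leadingCoeff with hc
      have hlc : (toPoly G).leadingCoeff ≠ 0 := leadingCoeff_ne_zero.2 hG0
      have h1 : F - c • G ∈ S' := S'.sub_mem hF (S'.smul_mem c (h hG))
      have h2 : F - c • G ∈ S := by
        by_cases hz : toPoly (F - c • G) = 0
        · have : F - c • G = 0 := toPoly.injective (by rw [hz, map_zero])
          rw [this]
          exact S.zero_mem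
        rcases Nat.eq_zero_or_pos (toPoly F).natDegree with hF0 | hF0
        · exfalso
          apply hz
          have e1 := eq_C_of_natDegree_eq_zero hF0
          have e2 := eq_C_of_natDegree_eq_zero (hGd'.trans hF0)
          have l1 : (toPoly F).leadingCoeff = (toPoly F).coeff 0 := by rw [leadingCoeff, hF0]
          have l2 : (toPoly G).leadingCoeff = (toPoly G).coeff 0 := by
            rw [leadingCoeff, hGd', hF0]
          rw [map_sub, map_smul, e1, e2, smul_C, ← C_sub, hc, l1, l2, smul_eq_mul]
          rw [l2] at hlc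
          rw [div_mul_cancel₀ _ hlc, sub_self, C_0]
        · apply ih _ h1
          have : (toPoly (F - c • G)).natDegree < (toPoly F).natDegree := by
            rw [map_sub, map_smul]
            have hlt : (toPoly F - c • toPoly G).natDegree ≤ (toPoly F).natDegree := by
              refine (natDegree_sub_le _ _).trans (max_le le_rfl ?_)
              exact (natDegree_smul_le _ _).trans hGd'.le
            refine lt_of_le_of_ne hlt ?_
            intro he
            have hco : (toPoly F - c • toPoly G).coeff (toPoly F).natDegree = 0 := by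
              rw [coeff_sub, coeff_smul, smul_eq_mul, ← hGd', coeff_natDegree, hGd',
                coeff_natDegree, hc, div_mul_cancel₀ _ hlc, sub_self]
            rw [← he, coeff_natDegree, leadingCoeff_eq_zero] at hco
            rw [map_sub, map_smul] at hz
            exact hz hco
          omega
      have h3 : F = (F - c • G) + c • G := by abel
      rw [h3]
      exact S.add_mem h2 (S.smul_mem c hG)
  intro F hF
  exact key _ F hF (Nat.lt_succ_self _)

theorem chain [CharZero k] (c : ℕ → LieSubalgebra k (W k)) (hc : Monotone c) :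
    ∃ n, ∀ m, n ≤ m → c m = c n := by
  obtain ⟨E, hE, hED, hE'⟩ := exists_finite (⋃ n, degs (c n)) (by
    intro i hi j hj hij
    obtain ⟨a, ha⟩ := Set.mem_iUnion.1 hi
    obtain ⟨b, hb⟩ := Set.mem_iUnion.1 hj
    exact Set.mem_iUnion.2 ⟨max a b, degs_closed _ _ (degs_mono (hc (le_max_left a b)) ha) _
      (degs_mono (hc (le_max_right a b)) hb) hij⟩) (by
    intro i hi
    obtain ⟨a, ha⟩ := Set.mem_iUnion.1 hi
    exact degs_pos i ha)
  have h1 : ∃ n, E ⊆ degs (c n) := by
    have h2 : ∀ e : ℕ, ∃ n, e ∈ E → e ∈ degs (c n) := by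
      intro e
      by_cases he : e ∈ E
      · obtain ⟨n, hn⟩ := Set.mem_iUnion.1 (hED he)
        exact ⟨n, fun _ => hn⟩
      · exact ⟨0, fun h => absurd h he⟩
    choose f hf using h2
    obtain ⟨n, hn⟩ := (hE.image f).bddAbove
    refine ⟨n, fun e he => ?_⟩
    exact degs_mono (hc (hn (Set.mem_image_of_mem f he))) (hf e he)
  obtain ⟨n, hn⟩ := h1
  refine ⟨n, fun m hm => le_antisymm ?_ (hc hm)⟩
  apply le_of_degs (hc hm)
  have h2 := hE' _ (degs_closed (c n)) hn
  exact (Set.subset_iUnion (fun n => degs (c n)) m).trans h2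

/-! ### residual nilpotency -/

/-- the ideal of the polynomials divisible by `X ^ n` -/
noncomputable def ideal (n : ℕ) : LieIdeal k (W k) where
  carrier := {F | X ^ n ∣ toPoly F}
  add_mem' := by
    intro F G hF hG
    show X ^ n ∣ toPoly (F + G)
    rw [map_add]
    exact dvd_add hF hG
  zero_mem' := by
    show X ^ n ∣ toPoly (0 : W k)
    rw [map_zero]
    exact dvd_zero _
  smul_mem' := by
    intro c F hF
    show X ^ n ∣ toPoly (c • F)
    rw [map_smul]
    exact hF.trans (dvd_smul_of_dvd c dvd_rfl)
  lie_mem := by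
    rintro F G ⟨g, hg⟩
    show X ^ n ∣ toPoly ⁅F, G⁆
    rw [toPoly_lie, hg, derivative_mul, derivative_X_pow]
    rcases n with _ | n
    · simp
    · refine ⟨X * (toPoly F * (C ((n + 1 : ℕ) : k) * g + X * derivative g) -
        X * (derivative (toPoly F) * g)), ?_⟩
      rw [Nat.add_sub_cancel]
      ring

theorem mem_ideal {n : ℕ} {F : W k} : F ∈ ideal n ↔ X ^ n ∣ toPoly F := Iff.rfl

theorem lie_mem_ideal {n : ℕ} {F G : W k} (h : G ∈ ideal n) : ⁅F, G⁆ ∈ ideal (n + 1) := by
  obtain ⟨g, hg⟩ := h
  rw [mem_ideal, toPoly_lie, hg, derivative_mul, derivative_X_pow]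
  rcases n with _ | n
  · refine ⟨X * (toPoly F * derivative g - derivative (toPoly F) * g), ?_⟩
    simp
    ring
  · refine ⟨(toPoly F * (C ((n + 1 : ℕ) : k) * g + X * derivative g) -
        X * (derivative (toPoly F) * g)), ?_⟩
    rw [Nat.add_sub_cancel]
    ring

theorem lcs_le (n : ℕ) : LieModule.lowerCentralSeries k (W k) (W k) n ≤ ideal n := by
  induction n with
  | zero =>
    intro F _
    rw [mem_ideal, pow_zero]
    exact one_dvd _
  | succ n ih =>
    rw [LieModule.lowerCentralSeries_succ, LieSubmodule.lie_le_iff]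
    intro F _ G hG
    exact lie_mem_ideal (ih hG)

theorem quotient_nilpotent (n : ℕ) : LieRing.IsNilpotent (W k ⧸ ideal (k := k) n) := by
  have h : LieModule.IsNilpotent (W k) (W k ⧸ ideal (k := k) n) :=
    (LieModule.isNilpotent_quotient_iff k (W k) (W k) (ideal n)).2 ⟨n, lcs_le n⟩
  rw [LieModule.isNilpotent_iff k] at h
  obtain ⟨m, hm⟩ := h
  refine (LieModule.isNilpotent_iff k _ _).2 ⟨m, ?_⟩
  have h1 := coe_lowerCentralSeries_ideal_quot_eq (R := k) (L := W k) (I := ideal n) m
  rw [hm, LieSubmodule.bot_toSubmodule] at h1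
  rw [← LieSubmodule.toSubmodule_inj, LieSubmodule.bot_toSubmodule]
  exact h1.symm

theorem residually (F : W k) (hF : F ≠ 0) :
    ∃ I : LieIdeal k (W k), F ∉ I ∧ LieRing.IsNilpotent (W k ⧸ I) := by
  refine ⟨ideal ((toPoly F).natDegree + 1), ?_, quotient_nilpotent _⟩
  intro h
  rw [mem_ideal] at h
  have h0 : toPoly F ≠ 0 := by
    intro h0
    exact hF (toPoly.injective (by rw [h0, map_zero]))
  have := natDegree_le_of_dvd h h0
  rw [natDegree_X_pow] at this
  omega

/-- **There are infinite-dimensional Noetherian Lie algebras which are approximable by nilpotent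
Lie algebras, over every field of characteristic zero.** -/
theorem result (k : Type u) [Field k] [CharZero k] :
    ∃ (L : Type u) (_ : LieRing L) (_ : LieAlgebra k L),
      ¬ FiniteDimensional k L ∧
      (∀ c : ℕ → LieSubalgebra k L, Monotone c → ∃ n, ∀ m, n ≤ m → c m = c n) ∧
      ∀ x : L, x ≠ 0 → ∃ I : LieIdeal k L, x ∉ I ∧ LieRing.IsNilpotent (L ⧸ I) :=
  ⟨W k, inferInstance, inferInstance, infinite_dim, chain, residually⟩

end Pool.Agent.Results.MP_d0ec72_al.NoetherianExample
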